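import Pool.Agent.MP_3ee8cb_gt.D3.Spec

/-! Crofton's formula for a front: definitions and row statements. -/

namespace Pool.Agent.MP_3ee8cb_gt.D3AR

open D3 Set MeasureTheory Metric
open scoped RealInnerProductSpace ENNReal

noncomputable section

/-- The times and places where the geodesic of `u` crosses the front in the positive sense. -/
def Ev (m : MF) (σ : V → V × V) (u : V × V) : Set (ℝ × V) :=
  {e | ‖e.2‖ = 1 ∧ (σ e.2).1 = (m.Z e.1 u).1 ∧ 0 < ⟪(m.Z e.1 u).2, (σ e.2).2⟫}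

/-- The geodesic of `u` is in general position. -/
def Gen (m : MF) (σ : V → V × V) (u : V × V) : Prop :=
  (∀ t a, ‖a‖ = 1 → (σ a).1 = (m.Z t u).1 → m.dl σ a ≠ 0 ∧ ⟪(m.Z t u).2, (σ a).2⟫ ≠ 0) ∧
    ∀ e ∈ Ev m σ u, ∀ e' ∈ Ev m σ u, e.1 = e'.1 → e = e'

/-- The count along one geodesic (block CT). -/
def SCNT : Prop := OnF fun m lg σ T => Wid m lg σ T → ∀ u : V × V, ‖u.2‖ = 1 → Gen m σ u →
  (Ev m σ u).Finite ∧
    {e ∈ Ev m σ u | 0 < m.ar σ e.2}.ncard ≤ {e ∈ Ev m σ u | m.ar σ e.2 < 0}.ncard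

/-- The unit vector in the direction of `a`. -/
def un (a : V) : V := ‖a‖⁻¹ • a

/-- The Crofton map. -/
def Cr (m : MF) (σ : V → V × V) (q : V × V) : V × V := m.Z (Real.log ‖q.1‖) ((σ q.1).1, q.2)

/-- The part of its domain where the area element has the sign `s`. -/
def Dm (m : MF) (σ : V → V × V) (s : ℝ) : Set (V × V) :=
  {q | q.1 ≠ 0 ∧ 0 < ⟪q.2, (σ q.1).2⟫ ∧ 0 < s * m.ar σ (un q.1)}

/-- A statement about a front. -/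
def OnG (P : MF → (V → V × V) → Prop) : Prop :=
  ∀ (m : MF) (σ : V → V × V), m.OK → m.Jac → m.Front σ → P m σ

/-- The area formula with multiplicity. -/
def SAF : Prop := ∀ (W : Type) [NormedAddCommGroup W] [NormedSpace ℝ W] [FiniteDimensional ℝ W]
  [MeasurableSpace W] [BorelSpace W] (μ : Measure W) [μ.IsAddHaarMeasure] (f : W → W)
  (f' : W → W →L[ℝ] W) (s : Set W), MeasurableSet s →
  (∀ x ∈ s, HasStrictFDerivAt f (f' x) x ∧ (f' x).det ≠ 0) →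
  ∃ N : W → ℝ≥0∞, Measurable N ∧ (∀ y, N y = ((s ∩ f ⁻¹' {y}).encard : ℝ≥0∞)) ∧
    ∀ g : W → ℝ≥0∞, Measurable g →
      ∫⁻ x in s, ENNReal.ofReal |(f' x).det| * g (f x) ∂μ = ∫⁻ y, N y * g y ∂μ

/-- The Jacobian of the Crofton map. -/
def JacP (m : MF) (σ : V → V × V) : Prop := ∀ q : V × V, q.1 ≠ 0 →
  ContDiffAt ℝ 1 (Cr m σ) q ∧ |(m.S (Cr m σ q).1).det| * |(fderiv ℝ (Cr m σ) q).det| =
    (‖q.1‖ ^ 3)⁻¹ * |⟪q.2, (σ (un q.1)).2⟫| * |m.dl σ (un q.1)|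

def SJC : Prop := OnG JacP

/-- A weight of total mass one on every geodesic. -/
def Wt (m : MF) (ψ : V × V → ℝ≥0∞) : Prop :=
  Measurable ψ ∧ ∀ u : V × V, u.2 ≠ 0 → ∫⁻ t : ℝ, ψ (m.Z t u) = 1

def SWT : Prop := ∀ (m : MF) (lg : V × V → V), m.OK → m.Jac → m.Had lg → ∃ ψ, Wt m ψ

/-- Polar coordinates with `r = exp t`. -/
def SPOL : Prop := ∀ G : V → ℝ≥0∞, Measurable G → ∫⁻ a, G a =
  ∫⁻ p : sphere (0 : V) 1, (∫⁻ t : ℝ, ENNReal.ofReal (Real.exp (3 * t)) * G (Real.exp t • p.1))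
    ∂(volume : Measure V).toSphere

def SROT : Prop := ∃ c : ℝ≥0∞, c ≠ 0 ∧ c ≠ ⊤ ∧ ∀ w : V, ‖w‖ = 1 →
  ∫⁻ ξ in closedBall (0 : V) 1, ENNReal.ofReal ⟪ξ, w⟫ = c

structure Mea (m : MF) (σ : V → V × V) : Prop where
  cont : ContinuousOn (m.ar σ) (sphere 0 1)
  abs : ∀ a, ‖a‖ = 1 → |m.ar σ a| = |m.dl σ a|
  dom : ∀ s, IsOpen (Dm m σ s)

def SMEA : Prop := OnG fun m σ => ∀ T, m.Good σ T → Mea m σ

/-- The density on the space of tangent vectors. -/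
def dn (m : MF) (ψ : V × V → ℝ≥0∞) (u : V × V) : ℝ≥0∞ :=
  ENNReal.ofReal |(m.S u.1).det| * ψ u * (closedBall (0 : V) 1).indicator 1 u.2

def LhsP (m : MF) (σ : V → V × V) (ψ : V × V → ℝ≥0∞) : Prop :=
  Measurable (dn m ψ) ∧ ∃ c : ℝ≥0∞, c ≠ 0 ∧ c ≠ ⊤ ∧ ∀ s : ℝ, s = 1 ∨ s = -1 →
    ∫⁻ q in Dm m σ s, ENNReal.ofReal |(fderiv ℝ (Cr m σ) q).det| * dn m ψ (Cr m σ q) =
      c * ∫⁻ p : sphere (0 : V) 1, ENNReal.ofReal (s * m.ar σ p) ∂(volume : Measure V).toSphere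

def SLHS : Prop := SPOL → SROT → OnG fun m σ => JacP m σ → Mea m σ → ∀ ψ, Wt m ψ → LhsP m σ ψ

/-- The cone over the regular double points. -/
def Dbl (m : MF) (σ : V → V × V) : Set V :=
  {a | a ≠ 0 ∧ m.dl σ (un a) ≠ 0 ∧ ∃ a', ‖a'‖ = 1 ∧ a' ≠ un a ∧ a' ≠ -un a ∧ m.dl σ a' ≠ 0 ∧
    (σ a').1 = (σ a).1}

def SDBL : Prop := OnG fun m σ => volume (Dbl m σ) = 0

def SGEN : Prop := OnG fun m σ => JacP m σ → volume (Dbl m σ) = 0 →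
  ∀ᵐ u : V × V, u.2 ≠ 0 → Gen m σ (u.1, un u.2)

def SLNK : Prop := OnG fun m σ => ∀ (s : ℝ) (u : V × V),
  (u.2 = 0 → Dm m σ s ∩ Cr m σ ⁻¹' {u} = ∅) ∧ (u.2 ≠ 0 → (Dm m σ s ∩ Cr m σ ⁻¹' {u}).encard =
    {e ∈ Ev m σ (u.1, un u.2) | 0 < s * m.ar σ e.2}.encard)

end

end Pool.Agent.MP_3ee8cb_gt.D3AR
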