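import Pool.Agent.MP_3ee8cb_gt.D3AR.Spec

/-! Polar coordinates with an exponential radius. -/

namespace Pool.Agent.MP_3ee8cb_gt.D3AR

open D3 Set MeasureTheory Metric
open scoped ENNReal

theorem pol_rad (g : ℝ → ℝ≥0∞) (hg : Measurable g) :
    ∫⁻ r : Ioi (0 : ℝ), g r ∂Measure.volumeIoiPow 2 =
      ∫⁻ t : ℝ, ENNReal.ofReal (Real.exp (3 * t)) * g (Real.exp t) := by
  have h1 : Measurable fun r : Ioi (0 : ℝ) => ENNReal.ofReal (r.1 ^ 2) :=
    (measurable_subtype_coe.pow_const _).ennreal_ofReal
  rw [Measure.volumeIoiPow, lintegral_withDensity_eq_lintegral_mul _ h1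
    (g := fun r : Ioi (0 : ℝ) => g r) (hg.comp measurable_subtype_coe)]
  have h2 := lintegral_subtype_comap (μ := (volume : Measure ℝ)) (measurableSet_Ioi (a := (0 : ℝ)))
    fun r : ℝ => ENNReal.ofReal (r ^ 2) * g r
  refine h2.trans ?_
  rw [← Real.range_exp, ← image_univ, lintegral_image_eq_lintegral_abs_deriv_mul MeasurableSet.univ
    (fun x _ => (Real.hasDerivAt_exp x).hasDerivWithinAt) Real.exp_injective.injOn,
    Measure.restrict_univ]
  refine lintegral_congr fun t => ?_
  rw [← mul_assoc, ← ENNReal.ofReal_mul (abs_nonneg _), abs_of_pos (Real.exp_pos t),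
    show 3 * t = t + t + t by ring, Real.exp_add, Real.exp_add, sq, mul_assoc]

theorem pol : SPOL := by
  intro G hG
  have hm : Measurable fun q : sphere (0 : V) 1 × Ioi (0 : ℝ) => G (q.2.1 • q.1.1) :=
    hG.comp (by fun_prop : Continuous fun q : sphere (0 : V) 1 × Ioi (0 : ℝ) =>
      q.2.1 • q.1.1).measurable
  have h1 := (volume : Measure V).measurePreserving_homeomorphUnitSphereProd.lintegral_comp hm
  have h2 := lintegral_subtype_comap (μ := (volume : Measure V))
    (measurableSet_singleton (0 : V)).compl G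
  rw [restrict_compl_singleton] at h2
  have h3 : Module.finrank ℝ V - 1 = 2 := by simp
  rw [h3, lintegral_prod _ hm.aemeasurable] at h1
  rw [← h2]
  refine (lintegral_congr fun x => ?_).trans (h1.trans (lintegral_congr fun p => ?_))
  · have hx : ‖x.1‖ ≠ 0 := norm_ne_zero_iff.2 x.2
    simp [smul_smul, hx]
  · exact pol_rad (fun r => G (r • p.1)) (hG.comp (measurable_id.smul_const _))

end Pool.Agent.MP_3ee8cb_gt.D3AR
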