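import Pool.Agent.MP_3ee8cb_gt.D3AR.Spec

/-! Crofton's formula for a front: assembly of the rows. -/

namespace Pool.Agent.MP_3ee8cb_gt.D3AR

open D3 Set MeasureTheory Metric
open scoped RealInnerProductSpace ENNReal

theorem fin_un {a : V} (ha : a ≠ 0) : ‖un a‖ = 1 ∧ ‖a‖ • un a = a := by
  have h : ‖a‖ ≠ 0 := norm_ne_zero_iff.2 ha
  constructor
  · simp [un, norm_smul, h]
  · simp [un, smul_smul, h]

theorem fin_det {m : MF} {σ : V → V × V} (fr : m.Front σ) (J : JacP m σ) (M : Mea m σ) {s : ℝ}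
    {q : V × V} (hq : q ∈ Dm m σ s) : (fderiv ℝ (Cr m σ) q).det ≠ 0 := by
  obtain ⟨h1, h2, h3⟩ := hq
  obtain ⟨u1, u2⟩ := fin_un h1
  have hn : ‖q.1‖ ≠ 0 := norm_ne_zero_iff.2 h1
  have u0 : un q.1 ≠ 0 := by
    intro h
    rw [h] at u1
    simp at u1
  have e := fr.hom ‖q.1‖ (un q.1) hn u0
  rw [u2] at e
  have a1 : ⟪q.2, (σ (un q.1)).2⟫ ≠ 0 := by
    intro h
    rw [e] at h2
    simp only [inner_smul_right, h, mul_zero, lt_self_iff_false] at h2
  have a2 : |m.dl σ (un q.1)| ≠ 0 := by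
    rw [← M.abs _ u1]
    intro h
    rw [abs_eq_zero.1 h] at h3
    simp at h3
  intro h
  have k := (J q h1).2
  rw [h, abs_zero, mul_zero] at k
  exact (mul_ne_zero (mul_ne_zero (inv_ne_zero (pow_ne_zero 3 hn)) (abs_ne_zero.2 a1)) a2) k.symm

theorem sar_fin (saf : SAF) (jc : SJC) (wt : SWT) (pol : SPOL) (rot : SROT) (mea : SMEA)
    (lhs : SLHS) (dbl : SDBL) (gen : SGEN) (lnk : SLNK) (cnt : SCNT) : SAR := by
  intro m lg σ T ok jac up had fr good hT wid
  have J := jc m σ ok jac fr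
  have M := mea m σ ok jac fr T good
  obtain ⟨ψ, hψ⟩ := wt m lg ok jac had
  obtain ⟨hd, c, c0, ct, hL⟩ := lhs pol rot m σ ok jac fr J M ψ hψ
  have : (volume : Measure (V × V)).IsAddHaarMeasure :=
    Measure.prod.instIsAddHaarMeasure volume volume
  have A := fun s : ℝ => saf (V × V) volume (Cr m σ) (fderiv ℝ (Cr m σ)) (Dm m σ s)
    (M.dom s).measurableSet fun x hx =>
      ⟨(J x hx.1).1.hasStrictFDerivAt (by norm_num), fin_det fr J M hx⟩
  obtain ⟨N₁, -, e₁, i₁⟩ := A 1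
  obtain ⟨N₂, -, e₂, i₂⟩ := A (-1)
  have le : ∀ᵐ u : V × V, N₁ u * dn m ψ u ≤ N₂ u * dn m ψ u := by
    filter_upwards [gen m σ ok jac fr J (dbl m σ ok jac fr)] with u hu
    refine mul_le_mul_left ?_ _
    rw [e₁, e₂]
    by_cases h0 : u.2 = 0
    · rw [(lnk m σ ok jac fr 1 u).1 h0]
      simp
    · rw [(lnk m σ ok jac fr 1 u).2 h0, (lnk m σ ok jac fr (-1) u).2 h0]
      obtain ⟨f, hc⟩ := cnt m lg σ T ok jac up had fr good hT wid (u.1, un u.2) (fin_un h0).1
        (hu h0)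
      have f₁ : {e ∈ Ev m σ (u.1, un u.2) | 0 < m.ar σ e.2}.Finite := f.subset fun _ h => h.1
      have f₂ : {e ∈ Ev m σ (u.1, un u.2) | m.ar σ e.2 < 0}.Finite := f.subset fun _ h => h.1
      simp only [one_mul, neg_mul, neg_pos]
      rw [← f₁.cast_ncard_eq, ← f₂.cast_ncard_eq]
      exact_mod_cast hc
  have k := lintegral_mono_ae le
  rw [← i₁ _ hd, ← i₂ _ hd, hL 1 (Or.inl rfl), hL (-1) (Or.inr rfl)] at k
  have k' := (ENNReal.mul_le_mul_iff_right c0 ct).1 k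
  simp only [one_mul, neg_mul] at k'
  have cn : Continuous fun p : sphere (0 : V) 1 => m.ar σ p :=
    continuousOn_iff_continuous_domRestrict.1 M.cont
  have it : Integrable (fun p : sphere (0 : V) 1 => m.ar σ p) (volume : Measure V).toSphere :=
    cn.integrable_of_hasCompactSupport (HasCompactSupport.of_compactSpace _)
  unfold sph
  rw [integral_eq_lintegral_pos_part_sub_lintegral_neg_part it, sub_nonpos]
  exact ENNReal.toReal_mono it.neg.lintegral_lt_top.ne k'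

end Pool.Agent.MP_3ee8cb_gt.D3AR
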