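import Pool.Agent.MP_3ee8cb_gt.D3AR.Spec

/-! The cone over the regular double points of a front is a null set. -/

namespace Pool.Agent.MP_3ee8cb_gt.D3AR

open D3 Set MeasureTheory Metric Filter Topology
open scoped RealInnerProductSpace

/-- A subset of a regular level set is null. -/
theorem dbl_null {s : Set V} {H : V → ℝ} (h0 : ∀ x ∈ s, H x = 0)
    (hd : ∀ x ∈ s, DifferentiableAt ℝ H x ∧ fderiv ℝ H x ≠ 0) : volume s = 0 := by
  have h1 : ∀ x ∈ s, ∃ M : V →L[ℝ] V, HasFDerivWithinAt id M s x ∧ M.det = 0 := by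
    intro x hx
    obtain ⟨hL, h1⟩ := hd x hx
    obtain ⟨e, he⟩ : ∃ e, fderiv ℝ H x e ≠ 0 := by
      by_contra hc
      exact h1 (ContinuousLinearMap.ext fun e => not_not.1 fun h => hc ⟨e, h⟩)
    refine ⟨.id ℝ V - (fderiv ℝ H x).smulRight ((fderiv ℝ H x e)⁻¹ • e), ?_, ?_⟩
    · have h2 := ((hasFDerivAt_id x).sub
        (hL.hasFDerivAt.smul_const ((fderiv ℝ H x e)⁻¹ • e))).hasFDerivWithinAt (s := s)
      exact h2.congr (fun y hy => by simp [h0 y hy]) (by simp [h0 x hx])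
    · refine LinearMap.det_eq_zero_iff_ker_ne_bot.2 ((Submodule.ne_bot_iff _).2 ⟨e, ?_, ?_⟩)
      · simp [smul_smul, mul_inv_cancel₀ he]
      · rintro rfl
        exact he (map_zero _)
  choose! M hM using h1
  have := addHaar_image_eq_zero_of_det_fderivWithin_eq_zero volume (fun x hx => (hM x hx).1)
    fun x hx => (hM x hx).2
  rwa [image_id] at this

/-- A sheet of a cone map lies in a level set. -/
theorem dbl_lev {F : V → V} {a v : V} (c : ContDiffAt ℝ 1 F a) (ha : ‖a‖ = 1)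
    (hom : ∀ (r : ℝ) x, r ≠ 0 → x ≠ 0 → F (r • x) = F x) (D : V ≃L[ℝ] V)
    (hD : (D : V →L[ℝ] V) = fderiv ℝ F a + (innerSL ℝ a).smulRight v) :
    ∃ G : V → ℝ, ContDiffAt ℝ 1 G (F a) ∧ (∀ᶠ x in 𝓝 a, G (F x) = 0) ∧
      ∀ x, fderiv ℝ G (F a) (D x) = ⟪a, x⟫ := by
  have aa : ⟪a, a⟫ = 1 := by rw [real_inner_self_eq_norm_sq, ha]; norm_num
  have i2 : ∀ x, HasFDerivAt (fun x : V => ⟪a, x⟫ - 1) (innerSL ℝ a) x := fun x =>
    (innerSL ℝ a).hasFDerivAt.sub_const 1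
  have i3 : ContDiff ℝ 1 fun x : V => ⟪a, x⟫ - 1 := (innerSL ℝ a).contDiff.sub contDiff_const
  have c1 : ContDiffAt ℝ 1 (fun x => F x + (⟪a, x⟫ - 1) • v) a :=
    c.add (i3.contDiffAt.smul contDiffAt_const)
  have d1 : HasFDerivAt (fun x => F x + (⟪a, x⟫ - 1) • v) (D : V →L[ℝ] V) a := by
    rw [hD]
    exact (c.differentiableAt one_ne_zero).hasFDerivAt.add ((i2 a).smul_const v)
  have s1 := c1.hasStrictFDerivAt' d1 one_ne_zero
  have e0 : F a + (⟪a, a⟫ - 1) • v = F a := by rw [aa, sub_self, zero_smul, add_zero]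
  have c2 := c1.to_localInverse d1 one_ne_zero
  have d2 := s1.to_localInverse.hasFDerivAt
  have l2 := s1.eventually_left_inverse
  change HasFDerivAt (c1.localInverse d1 one_ne_zero) _ _ at d2
  change ∀ᶠ x in 𝓝 a, c1.localInverse d1 one_ne_zero _ = x at l2
  generalize c1.localInverse d1 one_ne_zero = g at c2 d2 l2
  simp only [e0] at c2 d2
  refine ⟨fun y => ⟪a, g y⟫ - 1, i3.contDiffAt.comp _ c2, ?_, fun x => ?_⟩
  · have k0 : ContinuousAt (fun x : V => ⟪a, x⟫) a := (innerSL ℝ a).continuous.continuousAt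
    have k1 : ContinuousAt (fun x : V => ⟪a, x⟫⁻¹ • x) a :=
      (k0.inv₀ (by rw [aa]; exact one_ne_zero)).smul continuousAt_id
    have k2 : Tendsto (fun x : V => ⟪a, x⟫⁻¹ • x) (𝓝 a) (𝓝 a) := by
      have := k1.tendsto
      rwa [aa, inv_one, one_smul] at this
    filter_upwards [k2.eventually l2, k0.eventually_ne (by rw [aa]; exact one_ne_zero :
      ⟪a, a⟫ ≠ 0)] with x h1 h2
    have hx : x ≠ 0 := by
      rintro rfl
      exact h2 (inner_zero_right _)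
    have h3 : ⟪a, ⟪a, x⟫⁻¹ • x⟫ = 1 := by rw [real_inner_smul_right, inv_mul_cancel₀ h2]
    rw [h3, sub_self, zero_smul, add_zero, hom _ _ (inv_ne_zero h2) hx] at h1
    rw [h1, h3, sub_self]
  · have d3 : HasFDerivAt (fun y => ⟪a, g y⟫ - 1) _ (F a) := (i2 (g (F a))).comp (F a) d2
    rw [d3.fderiv]
    simp

section

variable {m : MF} {σ : V → V × V}

theorem dbl_c1 (f : m.Front σ) {a : V} (ha : a ≠ 0) : ContDiffAt ℝ 1 σ a :=
  f.c1.contDiffAt (isOpen_ne.mem_nhds ha)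

theorem dbl_A (f : m.Front σ) {a : V} (ha : a ≠ 0) (e : V) :
    m.A σ a e = m.S (σ a).1 (fderiv ℝ (fun x => (σ x).1) a e) := by
  rw [((dbl_c1 f ha).differentiableAt one_ne_zero).hasFDerivAt.fst.fderiv]
  rfl

theorem dbl_hom (f : m.Front σ) (r : ℝ) (x : V) (hr : r ≠ 0) (hx : x ≠ 0) :
    (σ (r • x)).1 = (σ x).1 := by rw [f.hom r x hr hx]

theorem dbl_scale (f : m.Front σ) {r : ℝ} {a : V} (hr : r ≠ 0) (ha : a ≠ 0) (e : V) :
    m.A σ a e = m.A σ (r • a) (r • e) := by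
  have hra : r • a ≠ 0 := smul_ne_zero hr ha
  have d1 := ((dbl_c1 f hra).fst.differentiableAt one_ne_zero).hasFDerivAt
  have d2 : HasFDerivAt (fun x : V => r • x) (r • ContinuousLinearMap.id ℝ V) a :=
    (hasFDerivAt_id a).const_smul r
  have d3 := (HasFDerivAt.comp a d1 d2).congr_of_eventuallyEq (f₁ := fun x => (σ x).1) (by
    filter_upwards [isOpen_ne.mem_nhds ha] with x hx
    exact (dbl_hom f r x hr hx).symm)
  rw [dbl_A f ha, dbl_A f hra, d3.fderiv, dbl_hom f r a hr ha]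
  rfl

theorem dbl_leg (f : m.Front σ) {a : V} (ha : a ≠ 0) (e : V) : ⟪(σ a).2, m.A σ a e⟫ = 0 :=
  f.leg a e ha

/-- Two regular sheets through one point are transversal. -/
theorem dbl_tr (o : m.OK) (f : m.Front σ) {u a : V} (hu : ‖u‖ = 1) (ha : ‖a‖ = 1)
    (n1 : a ≠ u) (n2 : a ≠ -u) (hd : m.dl σ u ≠ 0) (e : (σ a).1 = (σ u).1) :
    ∃ x, ⟪(σ a).2, m.A σ u x⟫ ≠ 0 := by
  by_contra hc
  have hc : ∀ x, ⟪(σ a).2, m.A σ u x⟫ = 0 := fun x => not_not.1 fun h => hc ⟨x, h⟩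
  have u0 : u ≠ 0 := norm_ne_zero_iff.1 (by rw [hu]; exact one_ne_zero)
  have a0 : a ≠ 0 := norm_ne_zero_iff.1 (by rw [ha]; exact one_ne_zero)
  have wu : ‖(σ u).2‖ = 1 := by rw [f.norm u u0, hu]
  have wa : ‖(σ a).2‖ = 1 := by rw [f.norm a a0, ha]
  obtain ⟨x, hx⟩ := (ContinuousLinearMap.toContinuousLinearEquivOfDetNeZero _ hd).surjective
    (σ a).2
  have hx : m.A σ u x + ⟪u, x⟫ • (σ u).2 = (σ a).2 := hx
  have h1 := congrArg (fun z => ⟪(σ a).2, z⟫) hx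
  have h2 := congrArg (fun z => ⟪(σ u).2, z⟫) hx
  simp only [inner_add_right, real_inner_smul_right, hc, dbl_leg f u0, real_inner_self_eq_norm_sq,
    wu, wa, zero_add, one_pow, mul_one] at h1 h2
  rw [h2, real_inner_comm] at h1
  rcases mul_self_eq_one_iff.1 h1 with h3 | h3
  · have h4 := (inner_eq_one_iff_of_norm_eq_one (𝕜 := ℝ) wa wu).1 h3
    exact n1 (f.sep u a 0 hu ha (by rw [o.zero]; exact Prod.ext e h4))
  · have h4 : (σ a).2 = -(σ u).2 :=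
      (inner_eq_one_iff_of_norm_eq_one (𝕜 := ℝ) wa (by rwa [norm_neg])).1 (by
        rw [inner_neg_right, h3, neg_neg])
    refine n2 (f.sep (-u) a 0 (by rwa [norm_neg]) ha ?_)
    rw [o.zero, ← neg_one_smul ℝ u, f.hom (-1) u (by norm_num) u0, neg_one_smul]
    exact Prod.ext e h4

theorem dbl_loc (o : m.OK) (f : m.Front σ) {a b : V} (a0 : a ≠ 0) (hd : m.dl σ (un a) ≠ 0)
    (hb : ‖b‖ = 1) (n1 : b ≠ un a) (n2 : b ≠ -un a) (hd' : m.dl σ b ≠ 0)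
    (e : (σ b).1 = (σ a).1) :
    ∃ t ∈ 𝓝 (a, b), volume (Prod.fst '' {p ∈ t | (σ p.2).1 = (σ p.1).1}) = 0 := by
  have b0 : b ≠ 0 := norm_ne_zero_iff.1 (by rw [hb]; exact one_ne_zero)
  have r0 : ‖a‖⁻¹ ≠ 0 := inv_ne_zero (norm_ne_zero_iff.2 a0)
  have hu : ‖un a‖ = 1 := by
    rw [un, norm_smul, norm_inv, norm_norm, inv_mul_cancel₀ (norm_ne_zero_iff.2 a0)]
  have eu : (σ (un a)).1 = (σ a).1 := dbl_hom f _ a r0 a0
  obtain ⟨x, hx⟩ := dbl_tr o f hu hb n1 n2 hd (e.trans eu.symm)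
  have hx' : ⟪(σ b).2, m.A σ a (‖a‖ • x)⟫ ≠ 0 := by
    rwa [dbl_scale f r0 a0, smul_smul, inv_mul_cancel₀ (norm_ne_zero_iff.2 a0), one_smul]
  set D := (ContinuousLinearMap.toContinuousLinearEquivOfDetNeZero _ hd').trans
    (ContinuousLinearEquiv.equivOfInverse (m.R (σ b).1) (m.S (σ b).1) (o.SR _) (o.RS _)) with hD
  have hD' : ∀ z, D z = m.R (σ b).1 (m.A σ b z + ⟪b, z⟫ • (σ b).2) := fun z => rfl
  obtain ⟨G, g1, g2, g3⟩ := dbl_lev (F := fun x => (σ x).1) (v := m.R (σ b).1 (σ b).2)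
    (dbl_c1 f b0).fst hb (dbl_hom f) D (by
      ext1 z
      change D z = _
      rw [hD', map_add, map_smul, dbl_A f b0, o.RS]
      rfl)
  have g4 : ∀ y, fderiv ℝ G (σ b).1 y = ⟪(σ b).2, m.S (σ b).1 y⟫ := by
    intro y
    obtain ⟨z, rfl⟩ := D.surjective y
    rw [g3, hD', o.SR, inner_add_right, dbl_leg f b0, real_inner_smul_right,
      real_inner_self_eq_norm_sq, f.norm b b0, hb]
    ring
  simp only [e] at g1 g4
  have c1 : ContDiffAt ℝ 1 (fun x => G (σ x).1) a := g1.comp a (dbl_c1 f a0).fst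
  have c2 : fderiv ℝ (fun x => G (σ x).1) a ≠ 0 := by
    intro h0
    have d1 := (g1.differentiableAt one_ne_zero).hasFDerivAt.comp a
      ((dbl_c1 f a0).fst.differentiableAt one_ne_zero).hasFDerivAt
    have d2 : fderiv ℝ (fun x => G (σ x).1) a = _ := d1.fderiv
    rw [dbl_A f a0, ← g4] at hx'
    rw [h0] at d2
    exact hx' (congrArg (fun L : V →L[ℝ] ℝ => L (‖a‖ • x)) d2).symm
  have c3 := (c1.eventually (by simp)).and
    ((c1.continuousAt_fderiv one_ne_zero).eventually_ne c2)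
  refine ⟨_, prod_mem_nhds c3 g2, dbl_null (H := fun x => G (σ x).1) ?_ ?_⟩
  · rintro _ ⟨p, ⟨⟨-, h1⟩, h2⟩, rfl⟩
    rw [← h2]
    exact h1
  · rintro _ ⟨p, ⟨⟨h1, -⟩, -⟩, rfl⟩
    exact ⟨h1.1.differentiableAt one_ne_zero, h1.2⟩

end

theorem dbl : SDBL := by
  intro m σ o _ f
  let P : Set (V × V) := {p | p.1 ≠ 0 ∧ m.dl σ (un p.1) ≠ 0 ∧ ‖p.2‖ = 1 ∧ p.2 ≠ un p.1 ∧
    p.2 ≠ -un p.1 ∧ m.dl σ p.2 ≠ 0 ∧ (σ p.2).1 = (σ p.1).1}
  have h1 : ∀ p ∈ P, ∃ t ∈ 𝓝 p, volume (Prod.fst '' {q ∈ t | (σ q.2).1 = (σ q.1).1}) = 0 :=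
    fun p ⟨k1, k2, k3, k4, k5, k6, k7⟩ => dbl_loc o f k1 k2 k3 k4 k5 k6 k7
  choose! t ht using h1
  obtain ⟨s, s1, s2, s3⟩ := TopologicalSpace.countable_cover_nhdsWithin (f := t) (s := P)
    fun p hp => mem_nhdsWithin_of_mem_nhds (ht p hp).1
  refine measure_mono_null ?_ ((measure_biUnion_null_iff s2).2 fun p hp => (ht p (s1 hp)).2)
  rintro a ⟨k1, k2, b, k3, k4, k5, k6, k7⟩
  obtain ⟨p, hp, hq⟩ := mem_iUnion₂.1 (s3 (⟨k1, k2, k3, k4, k5, k6, k7⟩ : (a, b) ∈ P))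
  exact mem_iUnion₂.2 ⟨p, hp, (a, b), ⟨hq, k7⟩, rfl⟩

end Pool.Agent.MP_3ee8cb_gt.D3AR
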