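import Pool.Agent.MP_3ee8cb_gt.D3AR.Spec

/-! Almost every geodesic is in general position. -/

namespace Pool.Agent.MP_3ee8cb_gt.D3AR

open D3 Set MeasureTheory Metric
open scoped RealInnerProductSpace ENNReal

theorem gen_det {m : MF} (h : m.OK) (y : V) : (m.S y).det ≠ 0 := by
  have e : (m.R y : V →ₗ[ℝ] V) ∘ₗ (m.S y : V →ₗ[ℝ] V) = LinearMap.id :=
    LinearMap.ext (h.RS y)
  have e' := congrArg LinearMap.det e
  rw [LinearMap.det_comp, LinearMap.det_id] at e'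
  intro h0
  change LinearMap.det (m.S y : V →ₗ[ℝ] V) = 0 at h0
  rw [h0, mul_zero] at e'
  exact zero_ne_one e'

theorem gen_un {a : V} (ha : ‖a‖ = 1) {r : ℝ} (hr : 0 < r) : un (r • a) = a := by
  unfold un
  rw [norm_smul, ha, mul_one, Real.norm_of_nonneg hr.le, smul_smul, inv_mul_cancel₀ hr.ne',
    one_smul]

theorem gen_ne {a : V} (ha : ‖a‖ = 1) : a ≠ 0 := by
  rintro rfl
  simp at ha

/-- The preimage of a vector under the Crofton map that belongs to a crossing. -/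
theorem gen_cr {m : MF} {σ : V → V × V} (h : m.OK) (j : m.Jac) (f : m.Front σ) (u : V × V)
    (hu : u.2 ≠ 0) (t : ℝ) (a : V) (ha : ‖a‖ = 1)
    (e : (σ a).1 = (m.Z t (u.1, un u.2)).1) :
    Cr m σ (Real.exp (-t / ‖u.2‖) • a, ‖u.2‖ • (m.Z t (u.1, un u.2)).2) = u := by
  have hρ : 0 < ‖u.2‖ := norm_pos_iff.2 hu
  have hr := Real.exp_pos (-t / ‖u.2‖)
  unfold Cr
  simp only
  rw [f.hom _ a hr.ne' (gen_ne ha), norm_smul, ha, mul_one, Real.norm_of_nonneg hr.le,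
    Real.log_exp]
  simp only
  rw [e, j.scale, mul_div_cancel₀ _ hρ.ne', Prod.mk.eta, ← h.add, neg_add_cancel, h.zero]
  refine Prod.ext rfl ?_
  change ‖u.2‖ • ‖u.2‖⁻¹ • u.2 = u.2
  rw [smul_smul, mul_inv_cancel₀ hρ.ne', one_smul]

theorem gen : SGEN := by
  intro m σ h j f jac hD
  have haar : (volume : Measure (V × V)).IsAddHaarMeasure :=
    Measure.prod.instIsAddHaarMeasure (volume : Measure V) (volume : Measure V)
  have dif : ∀ q : V × V, q.1 ≠ 0 → DifferentiableAt ℝ (Cr m σ) q := fun q hq =>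
    (jac q hq).1.differentiableAt (by norm_num)
  have n1 : volume (Cr m σ '' {q : V × V | q.1 ≠ 0 ∧ (fderiv ℝ (Cr m σ) q).det = 0}) = 0 :=
    addHaar_image_eq_zero_of_det_fderivWithin_eq_zero volume
      (f' := fun q => fderiv ℝ (Cr m σ) q)
      (fun q hq => (dif q hq.1).hasFDerivAt.hasFDerivWithinAt) fun q hq => hq.2
  have n2 : volume (Cr m σ '' (Dbl m σ ×ˢ (univ : Set V))) = 0 := by
    refine addHaar_image_eq_zero_of_differentiableOn_of_addHaar_eq_zero volume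
      (fun q hq => (dif q hq.1.1).differentiableWithinAt) ?_
    rw [Measure.volume_eq_prod, Measure.prod_prod, hD, zero_mul]
  filter_upwards [measure_eq_zero_iff_ae_notMem.1 n1, measure_eq_zero_iff_ae_notMem.1 n2]
    with u u1 u2 hu
  have hρ : 0 < ‖u.2‖ := norm_pos_iff.2 hu
  have first : ∀ t a, ‖a‖ = 1 → (σ a).1 = (m.Z t (u.1, un u.2)).1 →
      m.dl σ a ≠ 0 ∧ ⟪(m.Z t (u.1, un u.2)).2, (σ a).2⟫ ≠ 0 := by
    intro t a ha e
    have hr := Real.exp_pos (-t / ‖u.2‖)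
    have c := gen_cr h j f u hu t a ha e
    have q0 : Real.exp (-t / ‖u.2‖) • a ≠ 0 := smul_ne_zero hr.ne' (gen_ne ha)
    have k := (jac (Real.exp (-t / ‖u.2‖) • a, ‖u.2‖ • (m.Z t (u.1, un u.2)).2) q0).2
    have d0 : (fderiv ℝ (Cr m σ)
        (Real.exp (-t / ‖u.2‖) • a, ‖u.2‖ • (m.Z t (u.1, un u.2)).2)).det ≠ 0 :=
      fun d => u1 ⟨_, ⟨q0, d⟩, c⟩
    have k0 := mul_ne_zero (abs_ne_zero.2 (gen_det h (Cr m σ
      (Real.exp (-t / ‖u.2‖) • a, ‖u.2‖ • (m.Z t (u.1, un u.2)).2)).1)) (abs_ne_zero.2 d0)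
    rw [k] at k0
    simp only [gen_un ha hr] at k0
    refine ⟨abs_ne_zero.1 (right_ne_zero_of_mul k0), fun z => ?_⟩
    rw [real_inner_smul_left, z] at k0
    simp at k0
  refine ⟨first, ?_⟩
  rintro ⟨t, a⟩ ⟨ha, e, p⟩ ⟨t', a'⟩ ⟨ha', e', p'⟩ (rfl : t = t')
  simp only at ha e p ha' e' p'
  by_contra ne
  have hr := Real.exp_pos (-t / ‖u.2‖)
  refine u2 ⟨_, ⟨?_, mem_univ _⟩, gen_cr h j f u hu t a ha e⟩
  refine ⟨smul_ne_zero hr.ne' (gen_ne ha), ?_⟩
  simp only [gen_un ha hr]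
  refine ⟨(first t a ha e).1, a', ha', fun z => ne (by rw [z]), fun z => ?_,
    (first t a' ha' e').1, ?_⟩
  · have s := f.hom (-1) a (by norm_num) (gen_ne ha)
    rw [neg_one_smul, ← z] at s
    rw [s, real_inner_smul_right] at p'
    linarith
  · rw [f.hom _ a hr.ne' (gen_ne ha), e, e']

end Pool.Agent.MP_3ee8cb_gt.D3AR
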