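import Pool.Agent.MP_3ee8cb_gt.D3AR.Spec
import Pool.Agent.MP_3ee8cb_gt.CR.RBLK

/-! The Jacobian of the Crofton map. -/

namespace Pool.Agent.MP_3ee8cb_gt.D3AR

open D3 Set Filter Topology
open scoped RealInnerProductSpace

variable {m : MF} {σ : V → V × V}

theorem jc_log {a : V} (ha : a ≠ 0) :
    HasFDerivAt (fun x : V => Real.log ‖x‖) ((‖a‖ ^ 2)⁻¹ • innerSL ℝ a) a := by
  have h1 := ((hasStrictFDerivAt_norm_sq a).hasFDerivAt.log
    (pow_ne_zero 2 (norm_ne_zero_iff.2 ha))).const_mul (2⁻¹ : ℝ)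
  have e : (fun x : V => Real.log ‖x‖) = fun x => 2⁻¹ * Real.log (‖x‖ ^ 2) := by
    funext x
    rw [Real.log_pow]
    push_cast
    ring
  rw [e]
  refine h1.congr_fderiv ?_
  ext u
  simp only [smul_apply, smul_eq_mul, two_smul,
    add_apply]
  ring

theorem jc_cZ (h : m.OK) (t : ℝ) : Differentiable ℝ (m.Z t) :=
  (h.cZ.comp (contDiff_const.prodMk contDiff_id)).differentiable one_ne_zero

theorem jc_vf (h : m.OK) (t : ℝ) (z : V × V) :
    fderiv ℝ (m.Z t) z (m.vf z) = m.vf (m.Z t z) := by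
  have h0 := h.ode z 0
  rw [h.zero] at h0
  have h1 := (jc_cZ h t z).hasFDerivAt.comp_hasDerivAt_of_eq 0 h0 (h.zero z).symm
  have h2 := HasDerivAt.comp_const_add t 0 (f := fun s => m.Z s z) (h.ode z (t + 0))
  rw [add_zero] at h2
  simp only [h.add] at h2
  exact h1.unique h2

theorem jc_tot (h : m.OK) (t s : ℝ) (z v : V × V) :
    fderiv ℝ (fun q : ℝ × V × V => m.Z q.1 q.2) (t, z) (s, v) =
      fderiv ℝ (m.Z t) z (v + s • m.vf z) := by
  have d := (h.cZ.differentiable one_ne_zero (t, z)).hasFDerivAt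
  have h0 : HasDerivAt (fun x : ℝ => (x, z)) (1, 0) t :=
    (hasDerivAt_id t).prodMk (hasDerivAt_const t z)
  have h1 := (HasFDerivAt.comp_hasDerivAt (f := fun x : ℝ => (x, z)) t d h0).unique (h.ode z t)
  have h2 : fderiv ℝ (m.Z t) z = _ := (d.comp z (hasFDerivAt_prodMk_right t z)).fderiv
  have e : (s, v) = (0, v) + s • ((1 : ℝ), (0 : V × V)) := by simp
  rw [e, map_add, map_smul, h1, map_add, map_smul, jc_vf h, h2]
  rfl

theorem jc_ds (f : m.Front σ) {a : V} (ha : a ≠ 0) : ContDiffAt ℝ 1 σ a :=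
  f.c1.contDiffAt (isOpen_ne.mem_nhds ha)

theorem jc_A (f : m.Front σ) {p : V} (hp : p ≠ 0) {r : ℝ} (hr : r ≠ 0) (e : V) :
    r • m.A σ (r • p) e = m.A σ p e := by
  have d := fun {a : V} (ha : a ≠ 0) => ((jc_ds f ha).differentiableAt one_ne_zero).hasFDerivAt.fst
  have h1 := (d (smul_ne_zero hr hp)).comp p ((hasFDerivAt_id p).const_smul r)
  have h2 := (d hp).unique (h1.congr_of_eventuallyEq
    (eventually_of_mem (isOpen_ne.mem_nhds hp) fun x hx =>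
      (congrArg Prod.fst (f.hom r x hr hx)).symm))
  have h3 : (fderiv ℝ σ p e).1 = (fderiv ℝ σ (r • p) (r • e)).1 := congrArg (· e) h2
  change r • m.S (σ (r • p)).1 (fderiv ℝ σ (r • p) e).1 = m.S (σ p).1 (fderiv ℝ σ p e).1
  rw [h3, f.hom r p hr hp, map_smul, Prod.smul_fst, map_smul]

theorem jc_dl (f : m.Front σ) {p : V} (hp : ‖p‖ = 1) (ξ : V) :
    (m.A σ p + (innerSL ℝ p).smulRight ξ).det = ⟪ξ, (σ p).2⟫ * m.dl σ p := by
  have h0 : p ≠ 0 := norm_ne_zero_iff.1 (by rw [hp]; exact one_ne_zero)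
  have n : ⟪(σ p).2, (σ p).2⟫ = 1 := by rw [real_inner_self_eq_norm_sq, f.norm p h0, hp, one_pow]
  have e : ((m.A σ p + (innerSL ℝ p).smulRight ξ : V →L[ℝ] V) : V →ₗ[ℝ] V) =
      LinearMap.transvection (innerSL ℝ (σ p).2 : V →L[ℝ] ℝ) (ξ - (σ p).2) ∘ₗ
        ((m.A σ p + (innerSL ℝ p).smulRight (σ p).2 : V →L[ℝ] V) : V →ₗ[ℝ] V) := by
    refine LinearMap.ext fun u => ?_
    have l : ⟪(σ p).2, m.A σ p u⟫ = 0 := f.leg p u h0
    simp only [LinearMap.comp_apply, LinearMap.transvection.apply, ContinuousLinearMap.coe_coe,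
      add_apply, ContinuousLinearMap.smulRight_apply, innerSL_apply_apply,
      inner_add_right, inner_smul_right, l, n, zero_add, mul_one, smul_sub]
    abel
  have := congrArg LinearMap.det e
  rw [LinearMap.det_comp, LinearMap.transvection.det] at this
  refine this.trans (congrArg (· * _) ?_)
  simp only [ContinuousLinearMap.coe_coe, innerSL_apply_apply, inner_sub_right, n]
  rw [real_inner_comm]
  ring

theorem jc : SJC := by
  rintro m σ h j f ⟨a, ξ⟩ ha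
  have ha : a ≠ 0 := ha
  have r0 := norm_ne_zero_iff.2 ha
  have c1 : ContDiffAt ℝ 1 (fun q : V × V => (σ q.1).1) (a, ξ) :=
    ((jc_ds f ha).comp (a, ξ) contDiffAt_fst).fst
  refine ⟨h.cZ.contDiffAt.comp (a, ξ) (((contDiffAt_fst.norm ℝ ha).log r0).prodMk
    (c1.prodMk contDiffAt_snd)), ?_⟩
  have dσ := ((jc_ds f ha).differentiableAt one_ne_zero).hasFDerivAt
  have df : HasFDerivAt (Prod.fst : V × V → V) (.fst ℝ V V) (a, ξ) := hasFDerivAt_fst
  have d0 := (HasFDerivAt.comp (f := Prod.fst) (a, ξ) (jc_log ha) df).prodMk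
    ((HasFDerivAt.comp (f := Prod.fst) (a, ξ) dσ df).fst.prodMk hasFDerivAt_snd)
  have d1 := HasFDerivAt.comp (f := fun q : V × V => (Real.log ‖q.1‖, (σ q.1).1, q.2)) (a, ξ)
    (h.cZ.differentiable one_ne_zero (Real.log ‖a‖, (σ a).1, ξ)).hasFDerivAt d0
  have d2 : fderiv ℝ (Cr m σ) (a, ξ) = _ := d1.fderiv
  let l : V →L[ℝ] ℝ := (‖a‖ ^ 2)⁻¹ • innerSL ℝ a
  let P : V →L[ℝ] V := (ContinuousLinearMap.fst ℝ V V).comp (fderiv ℝ σ a) +
    l.smulRight (m.R (σ a).1 ξ)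
  let N : V →L[ℝ] V := l.smulRight (-m.om (σ a).1 (m.R (σ a).1 ξ) ξ)
  let L : V × V →L[ℝ] V × V := (P.comp (.fst ℝ V V)).prod (N.comp (.fst ℝ V V) + .snd ℝ V V)
  have e1 : (fderiv ℝ (Cr m σ) (a, ξ) : V × V →ₗ[ℝ] V × V) =
      (fderiv ℝ (m.Z (Real.log ‖a‖)) ((σ a).1, ξ) : V × V →ₗ[ℝ] V × V) ∘ₗ
        (L : V × V →ₗ[ℝ] V × V) := by
    refine LinearMap.ext fun u => ?_
    rw [d2]
    refine (jc_tot h _ (l u.1) _ ((fderiv ℝ σ a u.1).1, u.2)).trans ?_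
    exact congrArg (fderiv ℝ (m.Z (Real.log ‖a‖)) ((σ a).1, ξ)) (Prod.ext rfl (add_comm _ _))
  have e2 := CR.blk_tri (L : V × V →ₗ[ℝ] V × V) (P : V →ₗ[ℝ] V) .id (N : V →ₗ[ℝ] V) fun _ => rfl
  have up : ‖un a‖ = 1 := norm_smul_inv_norm ha
  have p0 : un a ≠ 0 := norm_ne_zero_iff.1 (by rw [up]; exact one_ne_zero)
  have e3 : (m.S (σ a).1 : V →ₗ[ℝ] V) ∘ₗ (P : V →ₗ[ℝ] V) = ‖a‖⁻¹ •
      ((m.A σ (un a) + (innerSL ℝ (un a)).smulRight ξ : V →L[ℝ] V) : V →ₗ[ℝ] V) := by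
    refine LinearMap.ext fun u => ?_
    have k := jc_A f p0 r0 u
    rw [show ‖a‖ • un a = a from smul_inv_smul₀ r0 a] at k
    change m.S (σ a).1 ((fderiv ℝ σ a u).1 + ((‖a‖ ^ 2)⁻¹ * ⟪a, u⟫) • m.R (σ a).1 ξ) =
      ‖a‖⁻¹ • (m.A σ (un a) u + ⟪‖a‖⁻¹ • a, u⟫ • ξ)
    rw [← k, smul_add, inv_smul_smul₀ r0, map_add, map_smul, h.SR, real_inner_smul_left,
      smul_smul, ← mul_assoc, ← mul_inv, sq]
    rfl
  have e4 := congrArg LinearMap.det e3
  rw [LinearMap.det_comp, LinearMap.det_smul, finrank_euclideanSpace_fin] at e4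
  have e5 := congrArg LinearMap.det e1
  rw [LinearMap.det_comp, e2, LinearMap.det_id, mul_one] at e5
  have e6 := j.vol ((σ a).1, ξ) (Real.log ‖a‖)
  have e7 := jc_dl f up ξ
  unfold ContinuousLinearMap.det at e6 e7 ⊢
  rw [e5, abs_mul, ← mul_assoc]
  refine (congrArg (· * _) e6).trans ?_
  rw [← abs_mul, e4, e7, abs_mul, abs_mul, inv_pow, abs_of_nonneg (by positivity), mul_assoc]

end Pool.Agent.MP_3ee8cb_gt.D3AR
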