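import Pool.Agent.MP_3ee8cb_gt.D3AR.Spec

/-! The left side of Crofton's formula. -/

namespace Pool.Agent.MP_3ee8cb_gt.D3AR

open D3 Set MeasureTheory Metric
open scoped RealInnerProductSpace ENNReal

noncomputable section

/-- The weight along the geodesic through `y` with normal `w`. -/
def lhs_k (m : MF) (ψ : V × V → ℝ≥0∞) (z : V × V) (t : ℝ) (ξ : V) : ℝ≥0∞ :=
  ENNReal.ofReal ⟪ξ, z.2⟫ * (ψ (m.Z t (z.1, ξ)) * (closedBall (0 : V) 1).indicator 1 ξ)

/-- The integrand. -/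
def lhs_H (m : MF) (σ : V → V × V) (ψ : V × V → ℝ≥0∞) (s : ℝ) (q : V × V) : ℝ≥0∞ :=
  ENNReal.ofReal (‖q.1‖ ^ 3)⁻¹ * (ENNReal.ofReal (s * m.ar σ (un q.1)) *
    lhs_k m ψ (σ (un q.1)) (Real.log ‖q.1‖) q.2)

theorem lhs_ind : Measurable ((closedBall (0 : V) 1).indicator (1 : V → ℝ≥0∞)) :=
  measurable_one.indicator measurableSet_closedBall

theorem lhs_km {m : MF} (h : m.OK) {ψ : V × V → ℝ≥0∞} (hψ : Measurable ψ) {X : Type}
    [MeasurableSpace X] {z : X → V × V} {t : X → ℝ} {ξ : X → V} (hz : Measurable z)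
    (ht : Measurable t) (hξ : Measurable ξ) :
    Measurable fun x => lhs_k m ψ (z x) (t x) (ξ x) := by
  have hZ := (hψ.comp h.cZ.continuous.measurable).comp (ht.prodMk (hz.fst.prodMk hξ))
  have hi : Measurable fun x => ⟪ξ x, (z x).2⟫ := hξ.inner hz.snd
  have hj := lhs_ind.comp hξ
  simp only [Function.comp_def] at hZ hj
  exact hi.ennreal_ofReal.mul (hZ.mul hj)

theorem lhs_un {a : V} (ha : a ≠ 0) : ‖un a‖ = 1 := norm_smul_inv_norm ha

theorem lhs_unc : ContinuousOn un ({0}ᶜ : Set V) :=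
  (continuous_norm.continuousOn.inv₀ fun _ ha => norm_ne_zero_iff.mpr ha).smul continuousOn_id

theorem lhs_ne {a : V} (ha : ‖a‖ = 1) : a ≠ 0 := fun h => by simp [h] at ha

theorem lhs_Hm {m : MF} {σ : V → V × V} (h : m.OK) (hF : m.Front σ) (hM : Mea m σ)
    {ψ : V × V → ℝ≥0∞} (hψ : Measurable ψ) (s : ℝ) : Measurable (lhs_H m σ ψ s) := by
  have h1 : Measurable fun a => σ (un a) := measurable_of_continuousOn_compl_singleton 0
    (hF.c1.continuousOn.comp lhs_unc fun a ha => lhs_ne (lhs_un ha))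
  have h2 : Measurable fun a => m.ar σ (un a) := measurable_of_continuousOn_compl_singleton 0
    (hM.cont.comp lhs_unc fun a ha => mem_sphere_zero_iff_norm.mpr (lhs_un ha))
  have h3 : Measurable fun q : V × V => σ (un q.1) := h1.comp measurable_fst
  have h4 : Measurable fun q : V × V => m.ar σ (un q.1) := h2.comp measurable_fst
  have h5 : Measurable fun q : V × V => ‖q.1‖ := measurable_fst.norm
  exact ((h5.pow_const 3).inv.ennreal_ofReal).mul
    ((h4.const_mul s).ennreal_ofReal.mul (lhs_km h hψ h3 h5.log measurable_snd))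

theorem lhs_pt {m : MF} {σ : V → V × V} (hJ : m.Jac) (hF : m.Front σ) (hP : JacP m σ)
    (hM : Mea m σ) (ψ : V × V → ℝ≥0∞) (s : ℝ) (hs : s = 1 ∨ s = -1) (q : V × V) :
    (Dm m σ s).indicator (fun q => ENNReal.ofReal |(fderiv ℝ (Cr m σ) q).det| *
      dn m ψ (Cr m σ q)) q = lhs_H m σ ψ s q := by
  by_cases ha : q.1 = 0
  · rw [indicator_of_notMem fun hq => hq.1 ha]
    simp [lhs_H, ha]
  have hn : 0 < ‖q.1‖ := norm_pos_iff.mpr ha
  have hu := lhs_un ha
  have e0 : σ q.1 = ((σ (un q.1)).1, ‖q.1‖ • (σ (un q.1)).2) := by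
    rw [← hF.hom _ _ hn.ne' (lhs_ne hu), un, smul_inv_smul₀ hn.ne']
  have e1 : ⟪q.2, (σ q.1).2⟫ = ‖q.1‖ * ⟪q.2, (σ (un q.1)).2⟫ := by
    rw [e0, real_inner_smul_right]
  by_cases hq : q ∈ Dm m σ s
  · have p1 : 0 < ⟪q.2, (σ (un q.1)).2⟫ := by
      have := hq.2.1
      rw [e1] at this
      exact (mul_pos_iff_of_pos_left hn).mp this
    have p2 : |m.dl σ (un q.1)| = s * m.ar σ (un q.1) := by
      rw [← hM.abs _ hu, ← abs_of_pos hq.2.2, abs_mul]
      rcases hs with rfl | rfl <;> simp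
    have e2 : Cr m σ q = m.Z (Real.log ‖q.1‖) ((σ (un q.1)).1, q.2) := by rw [Cr, e0]
    have e3 : (closedBall (0 : V) 1).indicator (1 : V → ℝ≥0∞) (Cr m σ q).2 =
        (closedBall (0 : V) 1).indicator 1 q.2 := by
      simp only [indicator, mem_closedBall_zero_iff, e2, hJ.norm, Pi.one_apply]
    have e4 := congrArg ENNReal.ofReal (hP q ha).2
    rw [ENNReal.ofReal_mul (abs_nonneg _), ENNReal.ofReal_mul (by positivity),
      ENNReal.ofReal_mul (by positivity), p2, abs_of_pos p1] at e4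
    rw [indicator_of_mem hq, dn, e3, lhs_H, lhs_k, ← e2]
    calc _ = ENNReal.ofReal |(m.S (Cr m σ q).1).det| *
          ENNReal.ofReal |(fderiv ℝ (Cr m σ) q).det| *
          (ψ (Cr m σ q) * (closedBall (0 : V) 1).indicator 1 q.2) := by ring
      _ = _ := by rw [e4]; ring
  · rw [indicator_of_notMem hq]
    by_cases p1 : 0 < ⟪q.2, (σ (un q.1)).2⟫
    · have p2 : s * m.ar σ (un q.1) ≤ 0 :=
        not_lt.mp fun h => hq ⟨ha, by rw [e1]; exact mul_pos hn p1, h⟩
      simp [lhs_H, ENNReal.ofReal_of_nonpos p2]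
    · simp [lhs_H, lhs_k, ENNReal.ofReal_of_nonpos (not_lt.mp p1)]

theorem lhs_line {m : MF} (h : m.OK) {ψ : V × V → ℝ≥0∞} (hψ : Wt m ψ) (z : V × V) :
    ∫⁻ t : ℝ, ∫⁻ ξ, lhs_k m ψ z t ξ = ∫⁻ ξ in closedBall (0 : V) 1, ENNReal.ofReal ⟪ξ, z.2⟫ := by
  have hm : Measurable (Function.uncurry (lhs_k m ψ z)) :=
    lhs_km h hψ.1 (z := fun _ : ℝ × V => z) measurable_const measurable_fst measurable_snd
  rw [lintegral_lintegral_swap hm.aemeasurable, ← lintegral_indicator measurableSet_closedBall]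
  refine lintegral_congr fun ξ => ?_
  by_cases h1 : ξ ∈ closedBall (0 : V) 1
  · by_cases h0 : ξ = 0
    · simp [lhs_k, h0]
    simp only [lhs_k, indicator_of_mem h1, Pi.one_apply, mul_one]
    rw [lintegral_const_mul' _ _ ENNReal.ofReal_ne_top, hψ.2 (z.1, ξ) h0, mul_one]
  · simp [lhs_k, indicator_of_notMem h1]

theorem lhs : SLHS := by
  rintro hpol ⟨c, c0, c1, hc⟩ m σ h hJ hF hP hM ψ hψ
  refine ⟨?_, c, c0, c1, fun s hs => ?_⟩
  · have : Continuous fun u : V × V => |(m.S u.1).det| :=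
      (ContinuousLinearMap.continuous_det.comp (h.cS.continuous.comp continuous_fst)).abs
    exact (this.measurable.ennreal_ofReal.mul hψ.1).mul (lhs_ind.comp measurable_snd)
  have hm := lhs_Hm h hF hM hψ.1 s
  rw [← lintegral_indicator (hM.dom s).measurableSet,
    lintegral_congr (lhs_pt hJ hF hP hM ψ s hs), Measure.volume_eq_prod,
    lintegral_prod _ hm.aemeasurable, hpol _ hm.lintegral_prod_right',
    ← lintegral_const_mul' _ _ c1]
  refine lintegral_congr fun p => ?_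
  have hp : ‖p.1‖ = 1 := mem_sphere_zero_iff_norm.mp p.2
  have e : ∀ t : ℝ, ENNReal.ofReal (Real.exp (3 * t)) *
      ∫⁻ ξ, lhs_H m σ ψ s (Real.exp t • p.1, ξ) =
      ENNReal.ofReal (s * m.ar σ p) * ∫⁻ ξ, lhs_k m ψ (σ p) t ξ := by
    intro t
    have n1 : ‖Real.exp t • p.1‖ = Real.exp t := by
      rw [norm_smul, hp, mul_one, Real.norm_of_nonneg (Real.exp_pos t).le]
    have n2 : un (Real.exp t • p.1) = p.1 := by
      rw [un, n1, inv_smul_smul₀ (Real.exp_pos t).ne']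
    have n3 : Real.exp (3 * t) * (Real.exp t ^ 3)⁻¹ = 1 := by
      rw [← Real.exp_nat_mul]
      exact mul_inv_cancel₀ (Real.exp_pos _).ne'
    simp only [lhs_H, n1, n2, Real.log_exp]
    rw [lintegral_const_mul' _ _ ENNReal.ofReal_ne_top,
      lintegral_const_mul' _ _ ENNReal.ofReal_ne_top, ← mul_assoc,
      ← ENNReal.ofReal_mul (Real.exp_pos _).le, n3, ENNReal.ofReal_one, one_mul]
  rw [lintegral_congr e, lintegral_const_mul' _ _ ENNReal.ofReal_ne_top, lhs_line h hψ,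
    hc _ ((hF.norm _ (lhs_ne hp)).trans hp), mul_comm]

end

end Pool.Agent.MP_3ee8cb_gt.D3AR
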