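import Pool.Agent.MP_3ee8cb_gt.D3AR.Spec

/-! The fibres of the Crofton map are the crossings. -/

namespace Pool.Agent.MP_3ee8cb_gt.D3AR

open D3 Set MeasureTheory Metric
open scoped RealInnerProductSpace ENNReal

lemma lnk_smul {a : V} (ha : a ≠ 0) : ‖a‖ • un a = a := by
  rw [un, smul_smul, mul_inv_cancel₀ (norm_ne_zero_iff.2 ha), one_smul]

lemma lnk_norm {a : V} (ha : a ≠ 0) : ‖un a‖ = 1 := by
  rw [un, norm_smul, norm_inv, norm_norm, inv_mul_cancel₀ (norm_ne_zero_iff.2 ha)]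

lemma lnk_ne {a : V} (ha : ‖a‖ = 1) : a ≠ 0 := fun h => by simp [h] at ha

lemma lnk_sig {m : MF} {σ : V → V × V} (hF : m.Front σ) {a : V} (ha : a ≠ 0) :
    σ a = ((σ (un a)).1, ‖a‖ • (σ (un a)).2) := by
  rw [← hF.hom ‖a‖ (un a) (norm_ne_zero_iff.2 ha) (lnk_ne (lnk_norm ha)), lnk_smul ha]

lemma lnk_key {m : MF} {σ : V → V × V} (hO : m.OK) (hJ : m.Jac) {u : V × V} (hu : u.2 ≠ 0)
    (q : V × V) : Cr m σ q = u ↔
      (σ q.1).1 = (m.Z (-‖u.2‖ * Real.log ‖q.1‖) (u.1, un u.2)).1 ∧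
        q.2 = ‖u.2‖ • (m.Z (-‖u.2‖ * Real.log ‖q.1‖) (u.1, un u.2)).2 := by
  have h1 : m.Z (-Real.log ‖q.1‖) u =
      ((m.Z (-‖u.2‖ * Real.log ‖q.1‖) (u.1, un u.2)).1,
        ‖u.2‖ • (m.Z (-‖u.2‖ * Real.log ‖q.1‖) (u.1, un u.2)).2) := by
    have h := hJ.scale (-Real.log ‖q.1‖) ‖u.2‖ u.1 (un u.2)
    rw [lnk_smul hu, mul_neg, ← neg_mul] at h
    exact h
  constructor
  · intro h
    have h2 : ((σ q.1).1, q.2) = m.Z (-Real.log ‖q.1‖) u := by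
      rw [← h, Cr, ← hO.add, neg_add_cancel, hO.zero]
    rw [h1] at h2
    exact Prod.mk.inj h2
  · rintro ⟨h2, h3⟩
    have h4 : ((σ q.1).1, q.2) = m.Z (-Real.log ‖q.1‖) u := by
      rw [h1]
      exact Prod.ext h2 h3
    rw [Cr, h4, ← hO.add, add_neg_cancel, hO.zero]

theorem lnk : SLNK := by
  intro m σ hO hJ hF s u
  refine ⟨fun hu => ?_, fun hu => ?_⟩
  · refine eq_empty_of_forall_notMem fun q ⟨hq, hc⟩ => ?_
    have h1 : Cr m σ q = u := hc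
    have h2 : ‖(Cr m σ q).2‖ = ‖q.2‖ := hJ.norm _ _
    rw [h1, hu, norm_zero] at h2
    have h3 := hq.2.1
    rw [norm_eq_zero.1 h2.symm, inner_zero_left] at h3
    exact lt_irrefl _ h3
  · have hρ : 0 < ‖u.2‖ := norm_pos_iff.2 hu
    have hb : BijOn (fun q : V × V => ((-‖u.2‖ * Real.log ‖q.1‖, un q.1) : ℝ × V))
        (Dm m σ s ∩ Cr m σ ⁻¹' {u}) {e ∈ Ev m σ (u.1, un u.2) | 0 < s * m.ar σ e.2} := by
      refine ⟨?_, ?_, ?_⟩
      · rintro q ⟨⟨h0, h1, h2⟩, hc⟩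
        obtain ⟨k1, k2⟩ := (lnk_key hO hJ hu q).1 hc
        have hs := lnk_sig hF h0
        refine ⟨⟨lnk_norm h0, ?_, ?_⟩, h2⟩
        · exact (congrArg Prod.fst hs).symm.trans k1
        · rw [k2, congrArg Prod.snd hs, real_inner_smul_left, real_inner_smul_right] at h1
          exact (mul_pos_iff_of_pos_left (norm_pos_iff.2 h0)).1
            ((mul_pos_iff_of_pos_left hρ).1 h1)
      · rintro q ⟨⟨h0, -, -⟩, hc⟩ q' ⟨⟨h0', -, -⟩, hc'⟩ h
        have e1 : -‖u.2‖ * Real.log ‖q.1‖ = -‖u.2‖ * Real.log ‖q'.1‖ := congrArg Prod.fst h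
        have e2 : un q.1 = un q'.1 := congrArg Prod.snd h
        have e3 : ‖q.1‖ = ‖q'.1‖ := Real.log_injOn_pos (norm_pos_iff.2 h0) (norm_pos_iff.2 h0')
          (mul_left_cancel₀ (neg_ne_zero.2 hρ.ne') e1)
        have e4 : q.1 = q'.1 := by rw [← lnk_smul h0, ← lnk_smul h0', e2, e3]
        refine Prod.ext e4 ?_
        rw [((lnk_key hO hJ hu q).1 hc).2, ((lnk_key hO hJ hu q').1 hc').2, e4]
      · rintro ⟨t, a⟩ ⟨⟨h1, h2, h3⟩, h4⟩
        have hp : 0 < Real.exp (-t / ‖u.2‖) := Real.exp_pos _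
        have ha : a ≠ 0 := lnk_ne h1
        have n1 : ‖Real.exp (-t / ‖u.2‖) • a‖ = Real.exp (-t / ‖u.2‖) := by
          rw [norm_smul, Real.norm_of_nonneg hp.le, show ‖a‖ = 1 from h1, mul_one]
        have n2 : un (Real.exp (-t / ‖u.2‖) • a) = a := by
          rw [un, n1, smul_smul, inv_mul_cancel₀ hp.ne', one_smul]
        have n3 : -‖u.2‖ * Real.log ‖Real.exp (-t / ‖u.2‖) • a‖ = t := by
          rw [n1, Real.log_exp]
          field_simp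
        have n4 := hF.hom (Real.exp (-t / ‖u.2‖)) a hp.ne' ha
        refine ⟨(Real.exp (-t / ‖u.2‖) • a, ‖u.2‖ • (m.Z t (u.1, un u.2)).2),
          ⟨⟨smul_ne_zero hp.ne' ha, ?_, ?_⟩, (lnk_key hO hJ hu _).2 ⟨?_, ?_⟩⟩,
          Prod.ext n3 n2⟩
        · change 0 < ⟪‖u.2‖ • (m.Z t (u.1, un u.2)).2, (σ (Real.exp (-t / ‖u.2‖) • a)).2⟫
          rw [n4, real_inner_smul_left, real_inner_smul_right]
          exact mul_pos hρ (mul_pos hp h3)
        · change 0 < s * m.ar σ (un (Real.exp (-t / ‖u.2‖) • a))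
          rw [n2]
          exact h4
        · change (σ (Real.exp (-t / ‖u.2‖) • a)).1 = _
          rw [n3, n4]
          exact h2
        · change ‖u.2‖ • (m.Z t (u.1, un u.2)).2 = _
          rw [n3]
    rw [← hb.image_eq, hb.injOn.encard_image]

end Pool.Agent.MP_3ee8cb_gt.D3AR
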