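import Pool.Agent.MP_3ee8cb_gt.D3AR.Spec

/-! Continuity of the area element of a front. -/

namespace Pool.Agent.MP_3ee8cb_gt.D3AR

open D3 Set MeasureTheory Metric
open scoped RealInnerProductSpace ENNReal

variable {m : MF} {σ : V → V × V}

theorem mea_open : IsOpen {a : V | a ≠ 0} := isOpen_ne

theorem mea_diff (fr : m.Front σ) {a : V} (ha : a ≠ 0) : DifferentiableAt ℝ σ a :=
  (fr.c1.contDiffAt (mea_open.mem_nhds ha)).differentiableAt (by norm_num)

theorem mea_cder (fr : m.Front σ) : ContinuousOn (fderiv ℝ σ) {a | a ≠ 0} :=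
  fr.c1.continuousOn_fderiv_of_isOpen mea_open le_rfl

theorem mea_cA (ok : m.OK) (fr : m.Front σ) : ContinuousOn (m.A σ) {a | a ≠ 0} := by
  have h1 : ContinuousOn (fun a => m.S (σ a).1) {a | a ≠ 0} :=
    ok.cS.continuous.comp_continuousOn fr.c1.continuousOn.fst
  exact (h1.clm_comp continuousOn_const).clm_comp (mea_cder fr)

theorem mea_cA' (ok : m.OK) (fr : m.Front σ) : ContinuousOn (m.A' σ) {a | a ≠ 0} := by
  have h1 : ContinuousOn (fun a => m.om (σ a).1) {a | a ≠ 0} :=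
    ok.com.continuous.comp_continuousOn fr.c1.continuousOn.fst
  have h2 : ContinuousOn (fun a => (m.om (σ a).1).flip (σ a).2) {a | a ≠ 0} :=
    ((ContinuousLinearMap.flipₗᵢ ℝ V V V).continuous.comp_continuousOn h1).clm_apply
      fr.c1.continuousOn.snd
  exact (continuousOn_const.add (h2.clm_comp continuousOn_const)).clm_comp (mea_cder fr)

theorem mea_cdt (ok : m.OK) (fr : m.Front σ) : ContinuousOn (m.dt σ 0) {a | a ≠ 0} :=
  ContinuousLinearMap.continuous_det.comp_continuousOn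
    ((mea_cA' ok fr).add ((mea_cA ok fr).const_smul (0 : ℝ)))

theorem mea_cdl (ok : m.OK) (fr : m.Front σ) : ContinuousOn (m.dl σ) {a | a ≠ 0} := by
  have h : ContinuousOn (fun a : V => (innerSL ℝ a).smulRight (σ a).2) {a | a ≠ 0} :=
    ((ContinuousLinearMap.smulRightL ℝ V V).continuous.comp_continuousOn
      (innerSL ℝ).continuous.continuousOn).clm_apply fr.c1.continuousOn.snd
  exact ContinuousLinearMap.continuous_det.comp_continuousOn ((mea_cA ok fr).add h)

theorem mea_inner (ok : m.OK) (fr : m.Front σ) {a : V} (ha : a ≠ 0) (e : V) :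
    ⟪(σ a).2, m.A' σ a e⟫ = ⟪a, e⟫ := by
  have hd := (mea_diff fr ha).hasFDerivAt
  have h2 : HasFDerivAt (fun a => (σ a).2) ((ContinuousLinearMap.snd ℝ V V).comp
      (fderiv ℝ σ a)) a := hd.snd
  have h3 := h2.norm_sq
  have h4 := (hasFDerivAt_id (𝕜 := ℝ) a).norm_sq
  have ev : (fun a => ‖(σ a).2‖ ^ 2) =ᶠ[nhds a] fun a : V => ‖id a‖ ^ 2 := by
    filter_upwards [mea_open.mem_nhds ha] with b hb
    rw [fr.norm b hb, id]
  have h5 := DFunLike.congr_fun (h3.unique (h4.congr_of_eventuallyEq ev)) e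
  have h6 : ⟪(σ a).2, (fderiv ℝ σ a e).2⟫ = ⟪a, e⟫ := by simpa using h5
  have h7 := ok.skew (σ a).1 (fderiv ℝ σ a e).1 (σ a).2 (σ a).2
  rw [real_inner_comm] at h7
  have e1 : m.A' σ a e = (fderiv ℝ σ a e).2 + m.om (σ a).1 (fderiv ℝ σ a e).1 (σ a).2 := rfl
  rw [e1, inner_add_right, h6]
  linarith

theorem mea_ne (ok : m.OK) (fr : m.Front σ) {T : ℝ} (gd : m.Good σ T) {a : V} (ha : ‖a‖ = 1) :
    m.dt σ 0 a ≠ 0 := by
  have ha0 : a ≠ 0 := by rintro rfl; simp at ha
  have hZ : m.Z 0 = id := funext ok.zero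
  have inj : ∀ e, m.A' σ a e = 0 → e = 0 := by
    intro e he
    have h1 := mea_inner ok fr ha0 e
    rw [he, inner_zero_right] at h1
    refine gd.inj a e 0 ha h1.symm ?_
    simp only [MF.J', hZ, fderiv_id, id]
    exact he
  have e0 : m.A' σ a + (0 : ℝ) • m.A σ a = m.A' σ a := by
    ext1 e
    simp
  rw [MF.dt, e0]
  intro h
  have h' : LinearMap.det (m.A' σ a : V →ₗ[ℝ] V) = 0 := h
  rw [LinearMap.det_eq_zero_iff_ker_ne_bot] at h'
  exact h' (LinearMap.ker_eq_bot'.mpr inj)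

theorem mea_un {a : V} (ha : a ≠ 0) : ‖un a‖ = 1 := by
  have : ‖a‖ ≠ 0 := norm_ne_zero_iff.mpr ha
  rw [un, norm_smul, norm_inv, norm_norm, inv_mul_cancel₀ this]

theorem mea : SMEA := by
  intro m σ ok _ fr T gd
  have sub : sphere (0 : V) 1 ⊆ {a | a ≠ 0} := by
    intro a ha h
    rw [h] at ha
    simp at ha
  have cont : ContinuousOn (m.ar σ) (sphere 0 1) := by
    have h1 := (mea_cdt ok fr).mono sub
    exact (h1.abs.div h1 fun a ha => mea_ne ok fr gd (mem_sphere_zero_iff_norm.mp ha)).mul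
      ((mea_cdl ok fr).mono sub)
  refine ⟨cont, fun a ha => ?_, fun s => ?_⟩
  · have := abs_ne_zero.mpr (mea_ne ok fr gd ha)
    rw [MF.ar, abs_mul, abs_div, abs_abs, div_self this, one_mul]
  · have hU : IsOpen {q : V × V | q.1 ≠ 0} := mea_open.preimage continuous_fst
    have c1 : ContinuousOn (fun q : V × V => ⟪q.2, (σ q.1).2⟫) {q | q.1 ≠ 0} :=
      continuousOn_snd.inner (fr.c1.continuousOn.comp continuousOn_fst fun _ h => h).snd
    have cu : ContinuousOn (fun q : V × V => un q.1) {q | q.1 ≠ 0} :=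
      (continuousOn_fst.norm.inv₀ fun q h => norm_ne_zero_iff.mpr h).smul continuousOn_fst
    have c2 : ContinuousOn (fun q : V × V => s * m.ar σ (un q.1)) {q | q.1 ≠ 0} :=
      continuousOn_const.mul (cont.comp cu fun q h => mem_sphere_zero_iff_norm.mpr (mea_un h))
    have o1 := c1.isOpen_inter_preimage hU (isOpen_Ioi (a := (0 : ℝ)))
    have o2 := c2.isOpen_inter_preimage hU (isOpen_Ioi (a := (0 : ℝ)))
    have e : Dm m σ s = ({q : V × V | q.1 ≠ 0} ∩ (fun q : V × V => ⟪q.2, (σ q.1).2⟫) ⁻¹' Ioi 0) ∩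
        ({q : V × V | q.1 ≠ 0} ∩ (fun q : V × V => s * m.ar σ (un q.1)) ⁻¹' Ioi 0) := by
      ext q
      simp only [Dm, mem_ofPred_eq, mem_inter_iff, mem_preimage, mem_Ioi]
      tauto
    rw [e]
    exact o1.inter o2

end Pool.Agent.MP_3ee8cb_gt.D3AR
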