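import Pool.Agent.MP_3ee8cb_gt.D3AR.Spec

/-! The integral of the positive part of a unit linear form over the ball. -/

namespace Pool.Agent.MP_3ee8cb_gt.D3AR

open D3 Set MeasureTheory Metric
open scoped RealInnerProductSpace ENNReal

lemma rot_eq (w w₀ : V) (h : ‖w‖ = ‖w₀‖) :
    ∫⁻ ξ in closedBall (0 : V) 1, ENNReal.ofReal ⟪ξ, w⟫ =
      ∫⁻ ξ in closedBall (0 : V) 1, ENNReal.ofReal ⟪ξ, w₀⟫ := by
  let R : V ≃ₗᵢ[ℝ] V := (ℝ ∙ (w - w₀))ᗮ.reflection
  have hR : R w = w₀ := Submodule.reflection_sub h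
  have h1 := R.measurePreserving.setLIntegral_comp_preimage_emb
    R.toHomeomorph.measurableEmbedding (fun ξ => ENNReal.ofReal ⟪ξ, w₀⟫) (closedBall (0 : V) 1)
  have h2 : R ⁻¹' closedBall (0 : V) 1 = closedBall 0 1 := by
    ext x
    simp only [mem_preimage, mem_closedBall_zero_iff, LinearIsometryEquiv.norm_map]
  rw [← h1, h2]
  refine lintegral_congr fun ξ => ?_
  rw [← hR, R.inner_map_map]

theorem rot : SROT := by
  obtain ⟨w₀, h₀⟩ : ∃ w₀ : V, ‖w₀‖ = 1 := exists_norm_eq V zero_le_one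
  have hc : Continuous fun ξ : V => ⟪ξ, w₀⟫ := continuous_id.inner continuous_const
  refine ⟨∫⁻ ξ in closedBall (0 : V) 1, ENNReal.ofReal ⟪ξ, w₀⟫, ?_, ?_,
    fun w hw => rot_eq w w₀ (hw.trans h₀.symm)⟩
  · refine ((setLIntegral_pos_iff hc.measurable.ennreal_ofReal).2 ?_).ne'
    have ho : IsOpen ({ξ : V | 0 < ⟪ξ, w₀⟫} ∩ ball 0 1) :=
      (isOpen_lt continuous_const hc).inter isOpen_ball
    have hne : ({ξ : V | 0 < ⟪ξ, w₀⟫} ∩ ball 0 1).Nonempty := by
      refine ⟨(1 / 2 : ℝ) • w₀, ?_, ?_⟩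
      · rw [mem_ofPred_eq, real_inner_smul_left, real_inner_self_eq_norm_sq, h₀]
        norm_num
      · rw [mem_ball_zero_iff, norm_smul, h₀]
        norm_num
    refine (ho.measure_pos volume hne).trans_le (measure_mono ?_)
    rintro ξ ⟨h1, h2⟩
    exact ⟨(ENNReal.ofReal_pos.2 h1).ne', ball_subset_closedBall h2⟩
  · refine ne_top_of_le_ne_top (b := ∫⁻ _ in closedBall (0 : V) 1, 1) ?_ ?_
    · rw [setLIntegral_one]
      exact measure_closedBall_lt_top.ne
    · refine setLIntegral_mono measurable_const fun ξ hξ => ?_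
      rw [mem_closedBall_zero_iff] at hξ
      refine ENNReal.ofReal_le_one.2 ((real_inner_le_norm _ _).trans ?_)
      rw [h₀, mul_one]
      exact hξ

end Pool.Agent.MP_3ee8cb_gt.D3AR
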