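import Pool.Agent.MP_3ee8cb_gt.D3AR.Spec

/-! A weight of total mass one on every geodesic. -/

namespace Pool.Agent.MP_3ee8cb_gt.D3AR

open D3 Set MeasureTheory Metric
open scoped RealInnerProductSpace ENNReal

theorem wt_fin {m : MF} {lg : V × V → V} (hJ : m.Jac) (hH : m.Had lg) (u : V × V)
    (hu : u.2 ≠ 0) :
    ∫⁻ t : ℝ, ENNReal.ofReal (Real.exp (-‖lg (0, (m.Z t u).1)‖ ^ 2)) ≠ ⊤ := by
  obtain ⟨y, b⟩ := u
  have hb : 0 < ‖b‖ := norm_pos_iff.2 hu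
  have hi : Integrable fun t : ℝ =>
      Real.exp (‖lg (y, 0)‖ ^ 2) * Real.exp (-(‖b‖ ^ 2 / 2) * t ^ 2) :=
    (integrable_exp_neg_mul_sq (by positivity)).const_mul _
  refine ne_top_of_le_ne_top hi.lintegral_lt_top.ne (lintegral_mono fun t => ?_)
  refine ENNReal.ofReal_le_ofReal ?_
  rw [← Real.exp_add]
  refine Real.exp_le_exp.2 ?_
  have e1 : (m.Z 1 (y, t • b)).1 = (m.Z t (y, b)).1 := by
    rw [hJ.scale, mul_one]
  have e2 := hH.xe y (t • b)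
  rw [e1] at e2
  have e3 := hH.tri y 0 (m.Z t (y, b)).1
  rw [e2, norm_smul, Real.norm_eq_abs] at e3
  have e4 : (|t| * ‖b‖) ^ 2 ≤ (‖lg (y, 0)‖ + ‖lg (0, (m.Z t (y, b)).1)‖) ^ 2 :=
    pow_le_pow_left₀ (by positivity) e3 2
  rw [mul_pow, sq_abs] at e4
  nlinarith [sq_nonneg (‖lg (y, 0)‖ - ‖lg (0, (m.Z t (y, b)).1)‖)]

theorem wt_gen {X : Type} [MeasurableSpace X] (Z : ℝ → X → X) (χ : X → ℝ≥0∞)
    (hZ : Measurable fun q : ℝ × X => Z q.1 q.2) (add : ∀ s t z, Z (s + t) z = Z s (Z t z))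
    (hχ : Measurable χ) (h0 : ∀ z, χ z ≠ 0) : ∃ ψ : X → ℝ≥0∞, Measurable ψ ∧
      ∀ u, ∫⁻ t : ℝ, χ (Z t u) ≠ ⊤ → ∫⁻ t : ℝ, ψ (Z t u) = 1 := by
  have h2 : Measurable fun q : ℝ × X => χ (Z q.1 q.2) := hχ.comp hZ
  have h1 : ∀ u, Measurable fun t : ℝ => χ (Z t u) := fun u =>
    h2.comp (measurable_id.prodMk measurable_const)
  obtain ⟨I, hId⟩ : ∃ I : X → ℝ≥0∞, I = fun u => ∫⁻ t : ℝ, χ (Z t u) := ⟨_, rfl⟩
  have hI : Measurable I := hId ▸ h2.lintegral_prod_left'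
  have inv : ∀ s u, I (Z s u) = I u := fun s u => by
    simp only [hId, ← add]
    exact lintegral_add_right_eq_self (fun t => χ (Z t u)) s
  have pos : ∀ u, ∫⁻ t : ℝ, χ (Z t u) ≠ 0 := fun u => by
    refine ((lintegral_pos_iff_support (h1 u)).2 ?_).ne'
    have : (Function.support fun t : ℝ => χ (Z t u)) = univ :=
      eq_univ_of_forall fun t => h0 _
    rw [this]
    simp
  refine ⟨fun u => χ u * (I u)⁻¹, hχ.mul hI.inv, fun u hu => ?_⟩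
  simp only [inv]
  rw [lintegral_mul_const _ (h1 u), hId]
  exact ENNReal.mul_inv_cancel (pos u) hu

theorem wt : SWT := by
  intro m lg hO hJ hH
  have hl : Continuous lg := hH.c1.continuous
  have hZ : Continuous fun q : ℝ × V × V => m.Z q.1 q.2 := hO.cZ.continuous
  have hc : Continuous fun z : V × V => Real.exp (-‖lg (0, z.1)‖ ^ 2) := by fun_prop
  obtain ⟨ψ, h1, h2⟩ := wt_gen m.Z (fun z => ENNReal.ofReal (Real.exp (-‖lg (0, z.1)‖ ^ 2)))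
    hZ.measurable hO.add hc.measurable.ennreal_ofReal
    fun _ => (ENNReal.ofReal_pos.2 (Real.exp_pos _)).ne'
  exact ⟨ψ, h1, fun u hu => h2 u (wt_fin hJ hH u hu)⟩

end Pool.Agent.MP_3ee8cb_gt.D3AR
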