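import Pool.Agent.MP_3ee8cb_gt.D3AR.Fin
import Pool.Agent.MP_3ee8cb_gt.D3AR.RDBL
import Pool.Agent.MP_3ee8cb_gt.D3AR.RGEN
import Pool.Agent.MP_3ee8cb_gt.D3AR.RJC
import Pool.Agent.MP_3ee8cb_gt.D3AR.RLHS
import Pool.Agent.MP_3ee8cb_gt.D3AR.RLNK
import Pool.Agent.MP_3ee8cb_gt.D3AR.RMEA
import Pool.Agent.MP_3ee8cb_gt.D3AR.RPOL
import Pool.Agent.MP_3ee8cb_gt.D3AR.RROT
import Pool.Agent.MP_3ee8cb_gt.D3AR.RSAF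
import Pool.Agent.MP_3ee8cb_gt.D3AR.RWT
import Pool.Agent.MP_3ee8cb_gt.D3CT.Asm
import Pool.Agent.MP_3ee8cb_gt.D3CT.RB1
import Pool.Agent.MP_3ee8cb_gt.D3CT.RBg
import Pool.Agent.MP_3ee8cb_gt.D3CT.RBs
import Pool.Agent.MP_3ee8cb_gt.D3CT.RCon
import Pool.Agent.MP_3ee8cb_gt.D3CT.REv
import Pool.Agent.MP_3ee8cb_gt.D3CT.RFin
import Pool.Agent.MP_3ee8cb_gt.D3CT.RFr
import Pool.Agent.MP_3ee8cb_gt.D3CT.RFt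
import Pool.Agent.MP_3ee8cb_gt.D3CT.RGn
import Pool.Agent.MP_3ee8cb_gt.D3CT.RHs
import Pool.Agent.MP_3ee8cb_gt.D3CT.RNm
import Pool.Agent.MP_3ee8cb_gt.D3CT.RPc
import Pool.Agent.MP_3ee8cb_gt.D3CT.RRg
import Pool.Agent.MP_3ee8cb_gt.D3MO.Def
import Pool.Agent.MP_3ee8cb_gt.D3MO.Fin
import Pool.Agent.MP_3ee8cb_gt.D3MO.Sph
import Pool.Agent.MP_3ee8cb_gt.D3MO.Tz

/-! The area inequality. -/

namespace Pool.Agent.MP_3ee8cb_gt.D3AR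

theorem cnt : SCNT := fun m lg σ T ok jac up had fr good hT wid u un gn =>
  D3CT.asm D3MO.sMorse D3MO.sDef D3MO.sTz D3MO.sSph D3CT.rowBs D3CT.rowFt D3CT.rowFr
    (D3CT.rowGn D3MO.sGno) D3CT.rowHs D3CT.rowBg D3CT.rowRg D3CT.rowB1 D3CT.rowEv D3CT.rowNm
    D3CT.rowPc D3CT.rowCon D3CT.rowFin m lg σ T ok jac up had fr good hT wid u un ⟨gn.1, gn.2⟩

theorem sar : D3.SAR := sar_fin saf jc wt pol rot mea lhs dbl gen lnk cnt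

end Pool.Agent.MP_3ee8cb_gt.D3AR
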