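import Pool.Agent.MP_3ee8cb_gt.D3AR.Spec

/-! The area formula with multiplicity for local diffeomorphisms. -/

namespace Pool.Agent.MP_3ee8cb_gt.D3AR

open Set MeasureTheory Filter Topology
open scoped ENNReal

theorem saf_cover {W : Type} [NormedAddCommGroup W] [NormedSpace ℝ W] [FiniteDimensional ℝ W]
    (f : W → W) (f' : W → W →L[ℝ] W) (s : Set W)
    (h : ∀ x ∈ s, HasStrictFDerivAt f (f' x) x ∧ (f' x).det ≠ 0) :
    ∃ u : ℕ → Set W, (∀ i, IsOpen (u i)) ∧ (∀ i, InjOn f (u i)) ∧ s ⊆ ⋃ i, u i := by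
  have : CompleteSpace W := FiniteDimensional.complete ℝ W
  have : ProperSpace W := FiniteDimensional.proper_real W
  have h1 : ∀ x, ∃ U : Set W, IsOpen U ∧ InjOn f U ∧ (x ∈ s → x ∈ U) := by
    intro x
    by_cases hx : x ∈ s
    · obtain ⟨hd, hn⟩ := h x hx
      have hd' : HasStrictFDerivAt f
          ((f' x).toContinuousLinearEquivOfDetNeZero hn : W →L[ℝ] W) x := by
        rw [ContinuousLinearMap.coe_toContinuousLinearEquivOfDetNeZero]; exact hd
      refine ⟨(hd'.toOpenPartialHomeomorph f).source, (hd'.toOpenPartialHomeomorph f).open_source,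
        ?_, fun _ => hd'.mem_toOpenPartialHomeomorph_source⟩
      have := (hd'.toOpenPartialHomeomorph f).injOn
      rwa [hd'.toOpenPartialHomeomorph_coe] at this
    · exact ⟨∅, isOpen_empty, injOn_empty f, fun h => (hx h).elim⟩
  choose U hUo hUi hUx using h1
  obtain ⟨t, -, htc, hts⟩ := TopologicalSpace.countable_cover_nhdsWithin (s := s) (f := U)
    fun x hx => mem_nhdsWithin_of_mem_nhds ((hUo x).mem_nhds (hUx x hx))
  obtain ⟨u, hu⟩ := ((htc.image U).insert ∅).exists_eq_range (insert_nonempty _ _)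
  have hm : ∀ i, u i = ∅ ∨ ∃ x, U x = u i := by
    intro i
    have : u i ∈ insert ∅ (U '' t) := by rw [hu]; exact mem_range_self i
    rcases this with h0 | ⟨x, -, hx⟩
    · exact Or.inl h0
    · exact Or.inr ⟨x, hx⟩
  refine ⟨u, fun i => ?_, fun i => ?_, fun x hx => ?_⟩
  · rcases hm i with h0 | ⟨x, hx⟩
    · rw [h0]; exact isOpen_empty
    · rw [← hx]; exact hUo x
  · rcases hm i with h0 | ⟨x, hx⟩
    · rw [h0]; exact injOn_empty f
    · rw [← hx]; exact hUi x
  · obtain ⟨y, hy, hxy⟩ := mem_iUnion₂.1 (hts hx)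
    have : U y ∈ range u := by rw [← hu]; exact Or.inr ⟨y, hy, rfl⟩
    obtain ⟨i, hi⟩ := this
    exact mem_iUnion.2 ⟨i, by rw [hi]; exact hxy⟩

theorem saf : SAF := by
  intro W _ _ _ _ _ μ _ f f' s hs h
  have : CompleteSpace W := FiniteDimensional.complete ℝ W
  have : ProperSpace W := FiniteDimensional.proper_real W
  obtain ⟨u, huo, hui, hus⟩ := saf_cover f f' s h
  set p : ℕ → Set W := fun i => s ∩ disjointed u i with hp
  have hpm : ∀ i, MeasurableSet (p i) := fun i =>
    hs.inter (MeasurableSet.disjointed (fun j => (huo j).measurableSet) i)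
  have hpd : Pairwise (Function.onFun Disjoint p) := fun i j hij =>
    (disjoint_disjointed u hij).mono inter_subset_right inter_subset_right
  have hpu : ⋃ i, p i = s := by
    rw [hp, ← inter_iUnion, iUnion_disjointed]
    exact inter_eq_left.2 hus
  have hpi : ∀ i, InjOn f (p i) := fun i =>
    (hui i).mono (inter_subset_right.trans (disjointed_subset u i))
  have hpf : ∀ i, ∀ x ∈ p i, HasFDerivWithinAt f (f' x) (p i) x := fun i x hx =>
    (h x hx.1).1.hasFDerivAt.hasFDerivWithinAt
  have him : ∀ i, MeasurableSet (f '' p i) := fun i =>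
    measurable_image_of_fderivWithin (hpm i) (hpf i) (hpi i)
  have hind : ∀ i, Measurable ((f '' p i).indicator (1 : W → ℝ≥0∞)) := fun i =>
    measurable_one.indicator (him i)
  refine ⟨fun y => ∑' i, (f '' p i).indicator 1 y, Measurable.ennreal_tsum hind, fun y => ?_,
    fun g hg => ?_⟩
  · have hsub : ∀ i, (p i ∩ f ⁻¹' {y}).Subsingleton := fun i a ha b hb =>
      hpi i ha.1 hb.1 (ha.2.trans hb.2.symm)
    have hmi : ∀ i, MeasurableSet (p i ∩ f ⁻¹' {y}) := fun i => (hsub i).measurableSet
    have he : s ∩ f ⁻¹' {y} = ⋃ i, p i ∩ f ⁻¹' {y} := by rw [← iUnion_inter, hpu]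
    rw [he, ← Measure.count_apply (MeasurableSet.iUnion hmi), measure_iUnion
      (fun i j hij => (hpd hij).mono inter_subset_left inter_subset_left) hmi]
    refine tsum_congr fun i => ?_
    by_cases hy : y ∈ f '' p i
    · obtain ⟨x, hx, rfl⟩ := hy
      rw [indicator_of_mem (mem_image_of_mem f hx), (hsub i).eq_singleton_of_mem (x := x) ⟨hx, rfl⟩,
        Measure.count_singleton]
      rfl
    · have : p i ∩ f ⁻¹' {y} = ∅ := by
        refine eq_empty_of_forall_notMem fun x hx => hy ⟨x, hx.1, hx.2⟩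
      rw [indicator_of_notMem hy, this, measure_empty]
  · conv_lhs => rw [← hpu]
    rw [lintegral_iUnion hpm hpd]
    simp_rw [← ENNReal.tsum_mul_right]
    rw [lintegral_tsum (f := fun i y => (f '' p i).indicator 1 y * g y)
      fun i => ((hind i).mul hg).aemeasurable]
    refine tsum_congr fun i => ?_
    rw [← lintegral_image_eq_lintegral_abs_det_fderiv_mul μ (hpm i) (hpf i) (hpi i) g,
      ← lintegral_indicator (him i)]
    refine lintegral_congr fun y => ?_
    by_cases hy : y ∈ f '' p i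
    · simp [indicator_of_mem hy]
    · simp [indicator_of_notMem hy]

end Pool.Agent.MP_3ee8cb_gt.D3AR
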